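import Mathlib
import Pool.Agent.Lib_helper88.HCR.Defs
import Pool.Agent.Lib_helper88.HCR.f0
import Pool.Agent.Lib_helper88.HCR.fn
import Pool.Agent.Lib_helper88.HCR.bw
import Pool.Agent.Lib_helper88.HCR.pd

set_option autoImplicit false

namespace HCR

open Finset Matrix

theorem pA_trace {v : ℕ} (E : Matrix (Fin v) (Fin v) ℤ) :
    Matrix.trace (rl E) = ((∑ i, E i i : ℤ) : ℝ) := by
  unfold Matrix.trace rl
  push_cast
  rfl

theorem pA_sq_nonneg {v : ℕ} (E : Matrix (Fin v) (Fin v) ℤ) : 0 ≤ sq E := by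
  unfold sq
  exact Finset.sum_nonneg fun i _ => Finset.sum_nonneg fun j _ => sq_nonneg _

/-- lower bound for `tr (M - E')⁻¹` -/
theorem pA_lower {v : ℕ} (M : ℝ) (hM : 0 < M) (d : ℕ) (E' : Matrix (Fin v) (Fin v) ℤ)
    (hE' : Cls d E') (hpsd : ∀ x : Fin v → ℝ, 0 ≤ x ⬝ᵥ (WM M (rl E') *ᵥ x))
    (hdet : (WM M (rl E')).det ≠ 0) :
    (v : ℝ) / M + ((∑ i, E' i i : ℤ) : ℝ) / M ^ 2
      + ((sq E' : ℤ) : ℝ) / ((M + Real.sqrt ((sq E' : ℤ) : ℝ)) * M ^ 2) ≤ tr1 M (rl E') := by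
  have hc0 : 0 ≤ Real.sqrt ((sq E' : ℤ) : ℝ) := Real.sqrt_nonneg _
  have hA0 : (0 : ℝ) ≤ ((sq E' : ℤ) : ℝ) := by exact_mod_cast pA_sq_nonneg E'
  have hsym := rl_symm E' hE'.symm
  have hb : Btw (M - Real.sqrt ((sq E' : ℤ) : ℝ)) (M + Real.sqrt ((sq E' : ℤ) : ℝ))
      (WM M (rl E')) := by
    apply btw_W M _ hc0 (rl E') hsym
    rw [fro_rl, Real.sq_sqrt hA0]
  obtain ⟨a, ha, hab⟩ := exists_btw (WM M (rl E')) (WM_symm M (rl E') hsym) hpsd hdet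
    (M + Real.sqrt ((sq E' : ℤ) : ℝ)) hb.2.2
  have h := (F_bounds M a (M + Real.sqrt ((sq E' : ℤ) : ℝ)) hM ha (by linarith) (rl E') hsym
    hab).1
  rw [pA_trace, fro_rl] at h
  exact h

/-- upper bound for `tr (M - E0)⁻¹` -/
theorem pA_upper {v : ℕ} (M s : ℝ) (hM : 0 < M) (hs : 0 ≤ s) (hsM : s < M) (d : ℕ)
    (E0 : Matrix (Fin v) (Fin v) ℤ) (h0 : Cls d E0) (hd0 : ∀ i, E0 i i = 0)
    (hA : ((sq E0 : ℤ) : ℝ) = s ^ 2) :
    tr1 M (rl E0) ≤ (v : ℝ) / M + s ^ 2 / ((M - s) * M ^ 2) := by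
  have hsym := rl_symm E0 h0.symm
  have hb : Btw (M - s) (M + s) (WM M (rl E0)) := by
    apply btw_W M _ hs (rl E0) hsym
    rw [fro_rl, hA]
  have h := (F_bounds M (M - s) (M + s) hM (by linarith) (by linarith) (rl E0) hsym hb).2
  rw [pA_trace, fro_rl, hA] at h
  have hz : ∑ i, E0 i i = 0 := Finset.sum_eq_zero fun i _ => hd0 i
  rw [hz] at h
  simpa using h

/-- The criterion. If `E0` has zero diagonal and `(sq E0) ^ 3 ≤ M ^ 2`, then a matrix of the class with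
`tr (M - E')⁻¹ ≤ tr (M - E0)⁻¹` has zero diagonal and `sq E' < sq E0 + 4`. -/
theorem crit {v : ℕ} (M : ℝ) (hM : 0 < M) (d : ℕ) (E0 E' : Matrix (Fin v) (Fin v) ℤ)
    (h0 : Cls d E0) (hd0 : ∀ i, E0 i i = 0) (hE' : Cls d E')
    (hA : ((sq E0 : ℤ) : ℝ) ^ 3 ≤ M ^ 2) (hA3 : sq E0 = 0 ∨ 3 ≤ sq E0)
    (hpsd : ∀ x : Fin v → ℝ, 0 ≤ x ⬝ᵥ (WM M (rl E') *ᵥ x)) (hdet : (WM M (rl E')).det ≠ 0)
    (hle : tr1 M (rl E') ≤ tr1 M (rl E0)) :
    (∀ i, E' i i = 0) ∧ sq E' < sq E0 + 4 := by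
  have hlow := pA_lower M hM d E' hE' hpsd hdet
  have hT0 : 0 ≤ ∑ i, E' i i := Finset.sum_nonneg fun i _ => hE'.nn i
  obtain ⟨T, hT⟩ : ∃ T, T = ∑ i, E' i i := ⟨_, rfl⟩
  obtain ⟨c, hc⟩ : ∃ c, c = Real.sqrt ((sq E' : ℤ) : ℝ) := ⟨_, rfl⟩
  have hA10 : (0 : ℝ) ≤ ((sq E' : ℤ) : ℝ) := by exact_mod_cast pA_sq_nonneg E'
  have hA00 : (0 : ℝ) ≤ ((sq E0 : ℤ) : ℝ) := by exact_mod_cast pA_sq_nonneg E0
  have hc0 : 0 ≤ c := by rw [hc]; exact Real.sqrt_nonneg _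
  have hc2 : ((sq E' : ℤ) : ℝ) = c ^ 2 := by rw [hc, Real.sq_sqrt hA10]
  rw [← hT, ← hc, hc2] at hlow
  rw [← hT] at hT0
  have hT0r : (0 : ℝ) ≤ (T : ℝ) := by exact_mod_cast hT0
  obtain ⟨s, hs⟩ : ∃ s, s = Real.sqrt ((sq E0 : ℤ) : ℝ) := ⟨_, rfl⟩
  have hs0 : 0 ≤ s := by rw [hs]; exact Real.sqrt_nonneg _
  have hs2 : ((sq E0 : ℤ) : ℝ) = s ^ 2 := by rw [hs, Real.sq_sqrt hA00]
  have hsM3 : s ^ 3 ≤ M := by
    rw [hs2] at hA
    have h1 : (s ^ 3) ^ 2 ≤ M ^ 2 := by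
      calc (s ^ 3) ^ 2 = (s ^ 2) ^ 3 := by ring
        _ ≤ M ^ 2 := hA
    exact le_of_sq_le_sq h1 hM.le
  -- the diagonal
  have hdiag : T = 0 → ∀ i, E' i i = 0 := by
    intro hT1 i
    have h1 : E' i i ≤ ∑ i, E' i i :=
      Finset.single_le_sum (f := fun i => E' i i) (fun j _ => hE'.nn j) (mem_univ i)
    have h2 := hE'.nn i
    omega
  have hTeven : Even T := by
    rw [hT]
    exact Finset.even_sum _ fun i _ => hE'.ev i
  rcases hA3 with hA3 | hA3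
  · -- `E0 = 0`
    have hsz : s = 0 := by
      have : s ^ 2 = 0 := by rw [← hs2, hA3]; simp
      exact pow_eq_zero_iff (two_ne_zero) |>.1 this
    have hup := pA_upper M s hM hs0 (by rw [hsz]; exact hM) d E0 h0 hd0 hs2
    have hM2 : 0 < M ^ 2 := by positivity
    have hMc : 0 < (M + c) * M ^ 2 := by positivity
    have h1 : (T : ℝ) / M ^ 2 + c ^ 2 / ((M + c) * M ^ 2) ≤ 0 := by
      have : s ^ 2 / ((M - s) * M ^ 2) = 0 := by rw [hsz]; simp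
      rw [this] at hup
      linarith
    have h2 : 0 ≤ (T : ℝ) / M ^ 2 := by positivity
    have h3 : 0 ≤ c ^ 2 / ((M + c) * M ^ 2) := by positivity
    have h4 : (T : ℝ) / M ^ 2 = 0 := by linarith
    have h5 : c ^ 2 / ((M + c) * M ^ 2) = 0 := by linarith
    have h6 : (T : ℝ) = 0 := by
      rcases div_eq_zero_iff.1 h4 with h | h
      · exact h
      · exact absurd h hM2.ne'
    have h7 : c ^ 2 = 0 := by
      rcases div_eq_zero_iff.1 h5 with h | h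
      · exact h
      · exact absurd h hMc.ne'
    refine ⟨hdiag (by exact_mod_cast h6), ?_⟩
    have h8 : ((sq E' : ℤ) : ℝ) = 0 := by rw [hc2, h7]
    have h9 : sq E' = 0 := by exact_mod_cast h8
    rw [h9, hA3]
    norm_num
  · have hs3 : 3 ≤ s ^ 2 := by
      rw [← hs2]
      exact_mod_cast hA3
    have hspos : 0 < s := by
      rcases hs0.lt_or_eq with h | h
      · exact h
      · rw [← h] at hs3; norm_num at hs3
    have hsM : s < M := by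
      have : s < s ^ 3 := by nlinarith [mul_pos hspos hspos]
      linarith
    have hup := pA_upper M s hM hs0 hsM d E0 h0 hd0 hs2
    have hM2 : 0 < M ^ 2 := by positivity
    have hMs : 0 < M - s := by linarith
    have hMc : 0 < M + c := by linarith
    have h1 : (T : ℝ) / M ^ 2 + c ^ 2 / ((M + c) * M ^ 2) ≤ s ^ 2 / ((M - s) * M ^ 2) := by
      linarith
    have h2 : (T : ℝ) + c ^ 2 / (M + c) ≤ s ^ 2 / (M - s) := by
      have e1 : (T : ℝ) / M ^ 2 + c ^ 2 / ((M + c) * M ^ 2) = ((T : ℝ) + c ^ 2 / (M + c)) / M ^ 2 := by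
        field_simp
      have e2 : s ^ 2 / ((M - s) * M ^ 2) = (s ^ 2 / (M - s)) / M ^ 2 := by
        field_simp
      rw [e1, e2] at h1
      exact (div_le_div_iff_of_pos_right hM2).1 h1
    have hcnn : 0 ≤ c ^ 2 / (M + c) := by positivity
    constructor
    · apply hdiag
      by_contra hne
      have hT2 : 2 ≤ T := by
        obtain ⟨k, hk⟩ := hTeven
        omega
      have hT2r : (2 : ℝ) ≤ (T : ℝ) := by exact_mod_cast hT2
      have h3 : 2 ≤ s ^ 2 / (M - s) := by linarith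
      rw [le_div_iff₀ hMs] at h3
      have h4 : s ^ 3 ≤ s + s ^ 2 / 2 := by linarith
      have h5 : s + s ^ 2 / 2 < s ^ 3 := by
        have h6 : 0 < s ^ 2 - 1 - s / 2 := by nlinarith [sq_nonneg (s - 1)]
        have h7 : s ^ 3 - (s + s ^ 2 / 2) = s * (s ^ 2 - 1 - s / 2) := by ring
        have h8 := mul_pos hspos h6
        linarith
      linarith
    · by_contra hcon
      push Not at hcon
      have h3 : s ^ 2 + 4 ≤ c ^ 2 := by
        rw [← hs2, ← hc2]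
        exact_mod_cast hcon
      have h4 : c ^ 2 / (M + c) ≤ s ^ 2 / (M - s) := by linarith
      rw [div_le_div_iff₀ hMc hMs] at h4
      have h5 : (c + s) * ((c - s) * M) ≤ (c + s) * (s * c) := by nlinarith
      have h6 : (c - s) * M ≤ s * c := le_of_mul_le_mul_left h5 (by linarith)
      have hcs : s < c := by
        by_contra hh
        push Not at hh
        nlinarith
      have h7 : (c - s) * s ^ 3 ≤ s * c :=
        le_trans (mul_le_mul_of_nonneg_left hsM3 (by linarith)) h6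
      have h8 : (c - s) * s ^ 2 ≤ c := by
        have : s * ((c - s) * s ^ 2) ≤ s * c := by
          calc s * ((c - s) * s ^ 2) = (c - s) * s ^ 3 := by ring
            _ ≤ s * c := h7
        exact le_of_mul_le_mul_left this hspos
      have h9 : c * (s ^ 2 - 1) ≤ s ^ 3 := by nlinarith
      have h10 : 0 ≤ c * (s ^ 2 - 1) := mul_nonneg hc0 (by linarith)
      have h11 : (c * (s ^ 2 - 1)) ^ 2 ≤ (s ^ 3) ^ 2 := pow_le_pow_left₀ h10 h9 2
      have h12 : (s ^ 2 + 4) * (s ^ 2 - 1) ^ 2 ≤ c ^ 2 * (s ^ 2 - 1) ^ 2 :=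
        mul_le_mul_of_nonneg_right h3 (sq_nonneg _)
      have h13 : (s ^ 2 + 4) * (s ^ 2 - 1) ^ 2 ≤ (s ^ 2) ^ 3 := by
        calc (s ^ 2 + 4) * (s ^ 2 - 1) ^ 2 ≤ c ^ 2 * (s ^ 2 - 1) ^ 2 := h12
          _ = (c * (s ^ 2 - 1)) ^ 2 := by ring
          _ ≤ (s ^ 3) ^ 2 := h11
          _ = (s ^ 2) ^ 3 := by ring
      obtain ⟨x, hx⟩ : ∃ x, x = s ^ 2 := ⟨_, rfl⟩
      rw [← hx] at h13 hs3
      nlinarith

end HCR
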