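import Mathlib
import Pool.Agent.Lib_helper88.HCR.Defs
import Pool.Agent.Lib_helper88.HCR.fn

set_option autoImplicit false

namespace HCR

open Finset Matrix

theorem pB_four {v : ℕ} (f : Fin v → Fin v → ℤ) (hs : ∀ i j, f i j = f j i) (h0 : ∀ i, f i i = 0)
    (he : ∀ i j, (2 : ℤ) ∣ f i j) : (4 : ℤ) ∣ ∑ i, ∑ j, f i j := by
  have h1 : ∑ i, ∑ j, f i j = (∑ i, ∑ j, if i < j then f i j else 0) +
      ∑ i, ∑ j, if j < i then f i j else 0 := by
    rw [← Finset.sum_add_distrib]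
    refine Finset.sum_congr rfl (fun i _ => ?_)
    rw [← Finset.sum_add_distrib]
    refine Finset.sum_congr rfl (fun j _ => ?_)
    rcases lt_trichotomy i j with h | h | h
    · rw [if_pos h, if_neg h.not_gt, add_zero]
    · rw [h, h0 j]
      simp
    · rw [if_neg h.not_gt, if_pos h, zero_add]
  have h2 : (∑ i, ∑ j, if j < i then f i j else 0) = ∑ i, ∑ j, if i < j then f i j else 0 := by
    rw [Finset.sum_comm]
    refine Finset.sum_congr rfl (fun i _ => Finset.sum_congr rfl (fun j _ => ?_))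
    rw [hs j i]
  rw [h1, h2, ← two_mul]
  have h3 : (2 : ℤ) ∣ ∑ i, ∑ j, if i < j then f i j else 0 := by
    refine Finset.dvd_sum (fun i _ => Finset.dvd_sum (fun j _ => ?_))
    split_ifs
    · exact he i j
    · exact dvd_zero _
  obtain ⟨c, hc⟩ := h3
  exact ⟨c, by rw [hc]; ring⟩

/-- parity -/
theorem sq_mod4 {v : ℕ} (d : ℕ) (E : Matrix (Fin v) (Fin v) ℤ) (hE : Cls d E)
    (h0 : ∀ i, E i i = 0) : (4 : ℤ) ∣ sq E - (v : ℤ) * d := by
  have h1 : sq E - (v : ℤ) * d = ∑ i, ∑ j, (E i j ^ 2 - E i j) := by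
    rw [← fn_sum d E hE.row]
    unfold sq
    rw [← Finset.sum_sub_distrib]
    refine Finset.sum_congr rfl (fun i _ => ?_)
    rw [← Finset.sum_sub_distrib]
  rw [h1]
  refine pB_four _ ?_ ?_ ?_
  · intro i j
    rw [hE.symm.apply j i]
  · intro i
    rw [h0 i]
    norm_num
  · intro i j
    have h2 : E i j ^ 2 - E i j = (E i j - 1) * (E i j - 1 + 1) := by ring
    rw [h2]
    exact (Int.even_mul_succ_self (E i j - 1)).two_dvd

theorem sq_zero_or {v : ℕ} (d : ℕ) (hd : d + 2 ≤ v) (E : Matrix (Fin v) (Fin v) ℤ)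
    (hE : Cls d E) (h0 : ∀ i, E i i = 0) : sq E = 0 ∨ 3 ≤ sq E := by
  have h1 := (sq_ge d E hE).1
  have h2 := sq_mod4 d E hE h0
  rcases Nat.eq_zero_or_pos d with h | h
  · subst h
    have h3 : (0 : ℤ) ≤ sq E := le_trans (by positivity) h1
    simp only [Nat.cast_zero, mul_zero, sub_zero] at h2
    omega
  · right
    have h4 : (3 : ℤ) ≤ v := by exact_mod_cast (by omega : 3 ≤ v)
    have h5 : (1 : ℤ) ≤ d := by exact_mod_cast h
    nlinarith

end HCR
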