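import Mathlib
import Pool.Agent.Lib_helper88.HCR.Defs
import Pool.Agent.Lib_helper88.HCR.dd
import Pool.Agent.Lib_helper88.HCR.df
import Pool.Agent.Lib_helper88.HCR.ds
import Pool.Agent.Lib_helper88.HCR.dw
import Pool.Agent.Lib_helper88.HCR.ee
import Pool.Agent.Lib_helper88.HCR.fn
import Pool.Agent.Lib_helper88.HCR.bw
import Pool.Agent.Lib_helper88.HCR.iv
import Pool.Agent.Lib_helper88.HCP.pA
import Pool.Agent.Lib_helper88.HCP.pB
import Pool.Agent.Lib_helper88.HCP.pF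

set_option autoImplicit false

namespace HCR

open Finset Matrix

theorem hcp_diag_zero {v : ℕ} (d : ℕ) (E : Matrix (Fin v) (Fin v) ℤ) (hE : Cls d E)
    (h : ∑ i, E i i ≤ 0) (i : Fin v) : E i i = 0 := by
  have h1 : ∑ i, E i i = 0 := le_antisymm h (Finset.sum_nonneg (fun i _ => hE.nn i))
  exact (Finset.sum_eq_zero_iff_of_nonneg (fun i _ => hE.nn i)).1 h1 i (mem_univ i)

/-- the criterion for designs -/
theorem crit_design {v b k r d : ℕ} (hv : 2 ≤ v) (hk : 2 ≤ k) (lam : ℤ) (hl : 1 ≤ lam)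
    (hp : (r : ℤ) * k - D0 v b k r = lam * ((v : ℤ) - 1) + d) (hd : d + 2 ≤ v)
    (N₀ : Matrix (Fin v) (Fin b) ℕ) (hN₀ : MSopt k r N₀)
    (hdiag : ∀ i, Ex lam (D0 v b k r - lam) N₀ i i = 0)
    (hA : (sq (Ex lam (D0 v b k r - lam) N₀)) ^ 3 ≤ (lam * v + d) ^ 2)
    (N' : Matrix (Fin v) (Fin b) ℕ) (hN' : Aopt k r N') : MSopt k r N' := by
  obtain ⟨hD', hC', hmin⟩ := hN'
  have hD₀ := hN₀.1
  have hk0 : (0 : ℝ) < k := by exact_mod_cast (by omega : 0 < k)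
  have hlr : (1 : ℝ) ≤ lam := by exact_mod_cast hl
  have hvr : (2 : ℝ) ≤ v := by exact_mod_cast hv
  have hd0 : (0 : ℝ) ≤ d := by positivity
  set M : ℝ := (lam : ℝ) * v + d with hM
  have hMpos : 0 < M := by rw [hM]; nlinarith
  set E₀ := Ex lam (D0 v b k r - lam) N₀ with hE₀
  set E' := Ex lam (D0 v b k r - lam) N' with hE'
  have hc0 : Cls d E₀ := Ex_cls lam N₀ hD₀ hp
  have hc' : Cls d E' := Ex_cls lam N' hD' hp
  have hAr : ((sq E₀ : ℤ) : ℝ) ^ 3 ≤ M ^ 2 := by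
    rw [hM]; exact_mod_cast hA
  have hA3 := sq_zero_or d hd E₀ hc0 hdiag
  -- `sqrt A < M`
  have hA0 : (0 : ℝ) ≤ ((sq E₀ : ℤ) : ℝ) := by
    have := fro_nonneg (rl E₀)
    rwa [fro_rl] at this
  have hsqrt : Real.sqrt ((sq E₀ : ℤ) : ℝ) < M := by
    rcases hA3 with h | h
    · rw [h]; simpa using hMpos
    · have h3 : (3 : ℝ) ≤ ((sq E₀ : ℤ) : ℝ) := by exact_mod_cast h
      apply (Real.sqrt_lt' hMpos).2
      nlinarith [mul_nonneg hA0 (sub_nonneg.2 h3), mul_nonneg (mul_nonneg hA0 hA0) (sub_nonneg.2 h3)]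
  have hC₀ : Conn k r N₀ := by
    rw [conn_iff (by omega) (by omega) lam hl N₀ hD₀ hp]
    have h2 := btw_W M (Real.sqrt ((sq E₀ : ℤ) : ℝ)) (Real.sqrt_nonneg _) _ (rl_symm _ hc0.symm) (by
      rw [fro_rl, Real.sq_sqrt hA0])
    exact (btw_det _ _ (by linarith) _ h2).ne_zero
  have h1 := hmin N₀ hD₀ hC₀
  rw [PhiA_eq (by omega) (by omega) lam hl N' hD' hp hC',
    PhiA_eq (by omega) (by omega) lam hl N₀ hD₀ hp hC₀] at h1
  have hle : tr1 M (rl E') ≤ tr1 M (rl E₀) := by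
    have h2 : (k : ℝ) * tr1 M (rl E') ≤ k * tr1 M (rl E₀) := by linarith
    exact le_of_mul_le_mul_left h2 hk0
  obtain ⟨g1, g2⟩ := crit M hMpos d E₀ E' hc0 hdiag hc' hAr hA3
    (fun x => (W_des hv hk lam (by omega) N' hD' hp hd x).1)
    ((conn_iff (by omega) (by omega) lam hl N' hD' hp).1 hC') hle
  have t0 := trace_Info (by omega) (by omega) lam N₀ hD₀ hp
  have t' := trace_Info (by omega) (by omega) lam N' hD' hp
  have s0 : ∑ i, E₀ i i = 0 := Finset.sum_eq_zero (fun i _ => hdiag i)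
  have s' : ∑ i, E' i i = 0 := Finset.sum_eq_zero (fun i _ => g1 i)
  rw [← hE₀, s0] at t0
  rw [← hE', s'] at t'
  have htr : trace (Info k r N') = trace (Info k r N₀) := by
    have : (k : ℝ) * trace (Info k r N') = k * trace (Info k r N₀) := by
      rw [t0.1, t'.1]
    exact mul_left_cancel₀ hk0.ne' this
  have hs1 := hN₀.2.2 N' hD' htr
  have hsq : sq E₀ ≤ sq E' := by
    have h2 : (k : ℝ) ^ 2 * trace (Info k r N₀ * Info k r N₀) ≤
        (k : ℝ) ^ 2 * trace (Info k r N' * Info k r N') :=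
      mul_le_mul_of_nonneg_left hs1 (by positivity)
    rw [t0.2, t'.2] at h2
    have h3 : ((sq E₀ : ℤ) : ℝ) ≤ ((sq E' : ℤ) : ℝ) := by linarith
    exact_mod_cast h3
  have m0 := sq_mod4 d E₀ hc0 hdiag
  have m' := sq_mod4 d E' hc' g1
  have heq : sq E' = sq E₀ := by omega
  have htr2 : trace (Info k r N' * Info k r N') = trace (Info k r N₀ * Info k r N₀) := by
    have : (k : ℝ) ^ 2 * trace (Info k r N' * Info k r N') =
        (k : ℝ) ^ 2 * trace (Info k r N₀ * Info k r N₀) := by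
      rw [t0.2, t'.2, heq]
    exact mul_left_cancel₀ (by positivity) this
  refine ⟨hD', fun N'' h'' => ?_, fun N'' h'' ht => ?_⟩
  · rw [htr]; exact hN₀.2.1 N'' h''
  · rw [htr2]
    exact hN₀.2.2 N'' h'' (by rw [ht, htr])

/-- `(M,S)`-optimal designs have zero diagonal if some design has -/
theorem ms_diag {v b k r d : ℕ} (hv : 1 ≤ v) (hk : 1 ≤ k) (lam : ℤ)
    (hp : (r : ℤ) * k - D0 v b k r = lam * ((v : ℤ) - 1) + d)
    (N₁ : Matrix (Fin v) (Fin b) ℕ) (hN₁ : IsDes k r N₁)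
    (h₁ : ∀ i, Ex lam (D0 v b k r - lam) N₁ i i = 0)
    (N₀ : Matrix (Fin v) (Fin b) ℕ) (hN₀ : MSopt k r N₀) (i : Fin v) :
    Ex lam (D0 v b k r - lam) N₀ i i = 0 := by
  have hk0 : (0 : ℝ) < k := by exact_mod_cast (by omega : 0 < k)
  have t0 := (trace_Info hv hk lam N₀ hN₀.1 hp).1
  have t1 := (trace_Info hv hk lam N₁ hN₁ hp).1
  have s1 : ∑ i, Ex lam (D0 v b k r - lam) N₁ i i = 0 := Finset.sum_eq_zero (fun i _ => h₁ i)
  rw [s1] at t1
  have h2 := mul_le_mul_of_nonneg_left (hN₀.2.1 N₁ hN₁) hk0.le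
  rw [t0, t1] at h2
  have h3 : ((∑ i, Ex lam (D0 v b k r - lam) N₀ i i : ℤ) : ℝ) ≤ ((0 : ℤ) : ℝ) := by
    push_cast at h2 ⊢
    linarith
  exact hcp_diag_zero d _ (Ex_cls lam N₀ hN₀.1 hp) (by exact_mod_cast h3) i

/-- `(M,S)`-optimal designs exist, with small `sq` -/
theorem ms_exists {v b k r d : ℕ} (hv : 2 ≤ v) (hk : 2 ≤ k) (hc : v * r = b * k) (lam : ℤ)
    (hp : (r : ℤ) * k - D0 v b k r = lam * ((v : ℤ) - 1) + d) (hd : d + 2 ≤ v) :
    ∃ N₀ : Matrix (Fin v) (Fin b) ℕ, MSopt k r N₀ ∧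
      (∀ i, Ex lam (D0 v b k r - lam) N₀ i i = 0) ∧
      4 * sq (Ex lam (D0 v b k r - lam) N₀) ≤ (v : ℤ) ^ 6 := by
  obtain ⟨N₁, hN₁, hd₁, hs₁⟩ := near_design hv hk hc lam hp hd
  have hk0 : (0 : ℝ) < k := by exact_mod_cast (by omega : 0 < k)
  have hfin : Set.Finite {N : Matrix (Fin v) (Fin b) ℕ | IsDes k r N ∧
      ∀ i, Ex lam (D0 v b k r - lam) N i i = 0} :=
    (des_finite v b k r).subset (fun N hN => hN.1)
  obtain ⟨N₀, ⟨hN₀, hd₀⟩, hmin⟩ := Set.exists_min_image _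
    (fun N : Matrix (Fin v) (Fin b) ℕ => sq (Ex lam (D0 v b k r - lam) N)) hfin ⟨N₁, hN₁, hd₁⟩
  refine ⟨N₀, ⟨hN₀, fun N' hN' => ?_, fun N' hN' ht => ?_⟩, hd₀,
    le_trans (mul_le_mul_of_nonneg_left (hmin N₁ ⟨hN₁, hd₁⟩) (by norm_num)) hs₁⟩
  · have t0 := (trace_Info (by omega) (by omega) lam N₀ hN₀ hp).1
    have t' := (trace_Info (by omega) (by omega) lam N' hN' hp).1
    have s0 : ∑ i, Ex lam (D0 v b k r - lam) N₀ i i = 0 := Finset.sum_eq_zero (fun i _ => hd₀ i)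
    rw [s0] at t0
    have hc' := Ex_cls lam N' hN' hp
    have h3 : (0 : ℝ) ≤ ((∑ i, Ex lam (D0 v b k r - lam) N' i i : ℤ) : ℝ) := by
      exact_mod_cast Finset.sum_nonneg (fun i _ => hc'.nn i)
    have h4 : (k : ℝ) * trace (Info k r N') ≤ k * trace (Info k r N₀) := by
      rw [t0, t']
      push_cast at h3 ⊢
      linarith
    exact le_of_mul_le_mul_left h4 hk0
  · have t0 := trace_Info (by omega) (by omega) lam N₀ hN₀ hp
    have t' := trace_Info (by omega) (by omega) lam N' hN' hp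
    have s0 : ∑ i, Ex lam (D0 v b k r - lam) N₀ i i = 0 := Finset.sum_eq_zero (fun i _ => hd₀ i)
    rw [s0] at t0
    have hc' := Ex_cls lam N' hN' hp
    have h5 : ((∑ i, Ex lam (D0 v b k r - lam) N' i i : ℤ) : ℝ) = 0 := by
      have h6 := t0.1
      rw [← ht, t'.1] at h6
      push_cast at h6 ⊢
      linarith
    have h5' : ∑ i, Ex lam (D0 v b k r - lam) N' i i = 0 := by exact_mod_cast h5
    have hz : ∀ i, Ex lam (D0 v b k r - lam) N' i i = 0 := hcp_diag_zero d _ hc' h5'.le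
    have h7 := hmin N' ⟨hN', hz⟩
    have h8 : (k : ℝ) ^ 2 * trace (Info k r N₀ * Info k r N₀) ≤
        (k : ℝ) ^ 2 * trace (Info k r N' * Info k r N') := by
      rw [t0.2, t'.2, h5']
      have h9 : ((sq (Ex lam (D0 v b k r - lam) N₀) : ℤ) : ℝ) ≤
        ((sq (Ex lam (D0 v b k r - lam) N') : ℤ) : ℝ) := by exact_mod_cast h7
      linarith
    exact le_of_mul_le_mul_left h8 (by positivity)

theorem hcp_params {v b k r : ℕ} (hv : 2 ≤ v) : ∃ (lam : ℤ) (d : ℕ),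
    (r : ℤ) * k - D0 v b k r = lam * ((v : ℤ) - 1) + d ∧ d + 2 ≤ v := by
  have hv' : (0 : ℤ) < (v : ℤ) - 1 := by omega
  refine ⟨((r : ℤ) * k - D0 v b k r) / ((v : ℤ) - 1),
    (((r : ℤ) * k - D0 v b k r) % ((v : ℤ) - 1)).toNat, ?_, ?_⟩
  · rw [Int.toNat_of_nonneg (Int.emod_nonneg _ hv'.ne')]
    have h := Int.mul_ediv_add_emod ((r : ℤ) * k - D0 v b k r) ((v : ℤ) - 1)
    linarith [mul_comm ((v : ℤ) - 1) (((r : ℤ) * k - D0 v b k r) / ((v : ℤ) - 1))]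
  · have h1 := Int.emod_lt_of_pos ((r : ℤ) * k - D0 v b k r) hv'
    have h2 := Int.emod_nonneg ((r : ℤ) * k - D0 v b k r) hv'.ne'
    omega

/-- `v ^ 9 ≤ r k` -/
theorem poly_direct (v b k r : ℕ) (hv : 1 ≤ v) (hk : 1 ≤ k) (h9 : v ^ 9 ≤ r * k) :
    Q1 v b k r ∧ ∀ N : Matrix (Fin v) (Fin b) ℕ, Aopt k r N → MSopt k r N := by
  by_cases hc : v * r = b * k
  swap
  · exact ⟨fun N hN => absurd (des_count N hN.1) hc, fun N hN => absurd (des_count N hN.1) hc⟩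
  rcases Nat.lt_or_ge v 2 with hv2 | hv2
  · have : v = 1 := by omega
    subst this
    exact ⟨Q1_one b k r, fun N hN => one_treatment N hN.1⟩
  rcases Nat.lt_or_ge k 2 with hk2 | hk2
  · have : k = 1 := by omega
    subst this
    exact ⟨fun N hN hC => absurd hC (conn_one hv2 N hN.1),
      fun N hN => absurd hN.2.1 (conn_one hv2 N hN.1)⟩
  obtain ⟨lam, d, hp, hd⟩ := hcp_params (b := b) (k := k) (r := r) hv2
  have hS := S_ge hv2 hk2 hc
  rw [hp] at hS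
  have hvz : (2 : ℤ) ≤ v := by exact_mod_cast hv2
  have hdz : (d : ℤ) + 2 ≤ v := by exact_mod_cast hd
  have hd0 : (0 : ℤ) ≤ d := by positivity
  have h9z : (v : ℤ) ^ 9 ≤ r * k := by exact_mod_cast h9
  have hv8 : (256 : ℤ) ≤ (v : ℤ) ^ 8 := by
    have : (2 : ℤ) ^ 8 ≤ (v : ℤ) ^ 8 := pow_le_pow_left₀ (by norm_num) hvz 8
    linarith
  have hv9 : (256 : ℤ) * v ≤ (v : ℤ) ^ 9 := by
    have : (v : ℤ) ^ 9 = (v : ℤ) ^ 8 * v := by ring
    rw [this]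
    exact mul_le_mul_of_nonneg_right hv8 (by linarith)
  have hl : 1 ≤ lam := by
    by_contra hcon
    have h1 : lam ≤ 0 := by omega
    have h2 : lam * ((v : ℤ) - 1) ≤ 0 := mul_nonpos_of_nonpos_of_nonneg h1 (by linarith)
    linarith
  obtain ⟨N₀, hMS, hdiag, hsq⟩ := ms_exists hv2 hk2 hc lam hp hd
  have hM : (v : ℤ) ^ 9 ≤ 4 * (lam * v + d) := by nlinarith
  have hA0 : 0 ≤ sq (Ex lam (D0 v b k r - lam) N₀) := by
    unfold sq; positivity
  have hA : (sq (Ex lam (D0 v b k r - lam) N₀)) ^ 3 ≤ (lam * v + d) ^ 2 := by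
    have h1 : (4 * sq (Ex lam (D0 v b k r - lam) N₀)) ^ 3 ≤ ((v : ℤ) ^ 6) ^ 3 :=
      pow_le_pow_left₀ (by linarith) hsq 3
    have h2 : ((v : ℤ) ^ 9) ^ 2 ≤ (4 * (lam * v + d)) ^ 2 :=
      pow_le_pow_left₀ (by positivity) hM 2
    have h3 : ((v : ℤ) ^ 6) ^ 3 = ((v : ℤ) ^ 9) ^ 2 := by ring
    rw [h3] at h1
    nlinarith
  have hAM : ∀ N : Matrix (Fin v) (Fin b) ℕ, Aopt k r N → MSopt k r N := fun N hN =>
    crit_design hv2 hk2 lam hl hp hd N₀ hMS hdiag hA N hN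
  refine ⟨?_, hAM⟩
  intro N hN hC hmin N' hN' hC'
  obtain ⟨N₁, hN₁⟩ := exists_Aopt N hN.1 hC
  exact (hmin N₁ (hAM N₁ hN₁) hN₁.2.1).trans (hN₁.2.2 N' hN' hC')

/-- `min (v, b) ^ 9 ≤ r k` -/
theorem poly_range (v b k r : ℕ) (hv : 1 ≤ v) (hb : 1 ≤ b) (hk : 1 ≤ k) (hr : 1 ≤ r)
    (h9 : (min v b) ^ 9 ≤ r * k) :
    Q1 v b k r ∧ ∀ N : Matrix (Fin v) (Fin b) ℕ, Aopt k r N → MSopt k r N := by
  rcases le_total v b with h | h
  · rw [min_eq_left h] at h9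
    exact poly_direct v b k r hv hk h9
  · rw [min_eq_right h] at h9
    obtain ⟨h1, h2⟩ := poly_direct b v r k hb hr (by rw [mul_comm]; exact h9)
    refine ⟨dual_Q1 hv hb hk hr h1, fun N hN => ?_⟩
    exact (dual_ms hk hr N).2 (h2 _ ((dual_Aopt hv hb hk hr N).1 hN))

/-- the criterion in terms of the concurrences: `k ≤ v` -/
theorem crit_conc (v b k r : ℕ) (hk : 2 ≤ k) (hkv : k ≤ v) (lam d : ℕ) (hl : 1 ≤ lam)
    (hp : r * (k - 1) = lam * (v - 1) + d) (hd : d < v - 1)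
    (N₀ : Matrix (Fin v) (Fin b) ℕ) (hN₀ : MSopt k r N₀)
    (hA : (∑ i, ∑ j, if i = j then (0 : ℤ) else
      ((∑ l, (N₀ i l : ℤ) * (N₀ j l : ℤ)) - lam) ^ 2) ^ 3 ≤ ((lam : ℤ) * v + d) ^ 2) :
    Q1 v b k r ∧ ∀ N : Matrix (Fin v) (Fin b) ℕ, Aopt k r N → MSopt k r N := by
  have hv2 : 2 ≤ v := by omega
  have hc := des_count N₀ hN₀.1
  have hD0 : D0 v b k r = r := by
    unfold D0
    rcases Nat.lt_or_ge k v with h | h
    · rw [Nat.div_eq_of_lt h]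
      push_cast
      ring
    · have hkv' : k = v := le_antisymm hkv h
      subst hkv'
      rw [Nat.div_self (by omega)]
      have : r = b := Nat.eq_of_mul_eq_mul_left (by omega : 0 < k) (by rw [hc, mul_comm])
      rw [this]
      push_cast
      ring
  have hpz : (r : ℤ) * k - D0 v b k r = (lam : ℤ) * ((v : ℤ) - 1) + d := by
    rw [hD0]
    have h1 : ((r * (k - 1) : ℕ) : ℤ) = ((lam * (v - 1) + d : ℕ) : ℤ) := by rw [hp]
    push_cast [Nat.cast_sub (by omega : 1 ≤ k), Nat.cast_sub (by omega : 1 ≤ v)] at h1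
    linarith
  obtain ⟨N₁, hN₁, hd₁, -⟩ := near_design hv2 hk hc (lam : ℤ) hpz (by omega)
  have hdiag := ms_diag (by omega) (by omega) (lam : ℤ) hpz N₁ hN₁ hd₁ N₀ hN₀
  have hsq : sq (Ex (lam : ℤ) (D0 v b k r - (lam : ℤ)) N₀) = ∑ i, ∑ j, if i = j then (0 : ℤ) else
      ((∑ l, (N₀ i l : ℤ) * (N₀ j l : ℤ)) - lam) ^ 2 := by
    unfold sq
    refine Finset.sum_congr rfl (fun i _ => Finset.sum_congr rfl (fun j _ => ?_))
    by_cases h : i = j
    · subst h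
      rw [hdiag]
      simp
    · simp only [Ex, if_neg h]
      ring
  have hAM : ∀ N : Matrix (Fin v) (Fin b) ℕ, Aopt k r N → MSopt k r N := fun N hN =>
    crit_design hv2 hk (lam : ℤ) (by exact_mod_cast hl) hpz (by omega) N₀ hN₀ hdiag
      (by rw [hsq]; exact hA) N hN
  refine ⟨?_, hAM⟩
  intro N hN hC hmin N' hN' hC'
  obtain ⟨N₂, hN₂⟩ := exists_Aopt N hN.1 hC
  exact (hmin N₂ (hAM N₂ hN₂) hN₂.2.1).trans (hN₂.2.2 N' hN' hC')

end HCR
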