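import Mathlib
import Pool.Agent.Lib_helper88.HCR.Defs

set_option autoImplicit false

namespace HCR

open Finset Matrix

theorem pC_range (b k j : ℕ) (hj : j < b) :
    ∑ m ∈ Finset.range (k * b), (if m % b = j then 1 else 0) = k := by
  induction k with
  | zero => simp
  | succ k ih =>
    rw [Nat.succ_mul, Finset.sum_range_add, ih]
    congr 1
    have h1 : ∀ x ∈ Finset.range b, (if (k * b + x) % b = j then 1 else 0) =
        if x = j then 1 else 0 := by
      intro x hx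
      have h2 : (k * b + x) % b = x := by
        rw [Nat.mul_comm, Nat.mul_add_mod, Nat.mod_eq_of_lt (Finset.mem_range.1 hx)]
      rw [h2]
    rw [Finset.sum_congr rfl h1, Finset.sum_ite_eq', if_pos (Finset.mem_range.2 hj)]

/-- `b` sets of size `k` with prescribed degrees -/
theorem exists_blocks {v : ℕ} (b k : ℕ) (ρ : Fin v → ℕ) (h1 : ∀ x, ρ x ≤ b)
    (h2 : ∑ x, ρ x = k * b) :
    ∃ B : Fin b → Finset (Fin v), (∀ j, (B j).card = k) ∧
      ∀ x, (univ.filter (fun j => x ∈ B j)).card = ρ x := by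
  obtain ⟨c, hc⟩ : ∃ c : (Σ x : Fin v, Fin (ρ x)) → ℕ, c = fun p => (finSigmaFinEquiv p : ℕ) :=
    ⟨_, rfl⟩
  have hcs : ∀ x : Fin v, ∃ s : ℕ, ∀ t : Fin (ρ x), c ⟨x, t⟩ = s + t := by
    intro x
    refine ⟨∑ i : Fin (x : ℕ), ρ (Fin.castLE x.2.le i), fun t => ?_⟩
    rw [hc]
    exact finSigmaFinEquiv_apply (⟨x, t⟩ : Σ x : Fin v, Fin (ρ x))
  have hinj : ∀ (x : Fin v) (t t' : Fin (ρ x)), c ⟨x, t⟩ % b = c ⟨x, t'⟩ % b → t = t' := by
    intro x t t' h
    obtain ⟨s, hs⟩ := hcs x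
    rw [hs t, hs t'] at h
    have h3 : (t : ℕ) ≡ t' [MOD b] := Nat.ModEq.add_left_cancel' s h
    have h4 : (t : ℕ) < b := lt_of_lt_of_le t.2 (h1 x)
    have h5 : (t' : ℕ) < b := lt_of_lt_of_le t'.2 (h1 x)
    exact Fin.ext (Nat.ModEq.eq_of_lt_of_lt h3 h4 h5)
  have hA : ∀ (x : Fin v) (j : Fin b),
      (if x ∈ univ.filter (fun x => ∃ t : Fin (ρ x), c ⟨x, t⟩ % b = (j : ℕ)) then 1 else 0) =
        ∑ t : Fin (ρ x), if c ⟨x, t⟩ % b = (j : ℕ) then 1 else 0 := by
    intro x j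
    by_cases h : ∃ t : Fin (ρ x), c ⟨x, t⟩ % b = (j : ℕ)
    · have hm : x ∈ univ.filter (fun x => ∃ t : Fin (ρ x), c ⟨x, t⟩ % b = (j : ℕ)) :=
        Finset.mem_filter.2 ⟨mem_univ _, h⟩
      rw [if_pos hm]
      obtain ⟨t, ht⟩ := h
      rw [Finset.sum_eq_single t]
      · rw [if_pos ht]
      · intro t' _ hne
        rw [if_neg]
        intro h6
        exact hne (hinj x t' t (h6.trans ht.symm))
      · intro h6
        exact absurd (mem_univ t) h6
    · have hm : x ∉ univ.filter (fun x => ∃ t : Fin (ρ x), c ⟨x, t⟩ % b = (j : ℕ)) :=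
        fun h6 => h (Finset.mem_filter.1 h6).2
      rw [if_neg hm]
      symm
      refine Finset.sum_eq_zero (fun t _ => ?_)
      rw [if_neg (fun h6 => h ⟨t, h6⟩)]
  refine ⟨fun j => univ.filter (fun x => ∃ t : Fin (ρ x), c ⟨x, t⟩ % b = (j : ℕ)), ?_, ?_⟩
  · intro j
    have h3 : (univ.filter (fun x : Fin v => ∃ t : Fin (ρ x), c ⟨x, t⟩ % b = (j : ℕ))).card =
        ∑ x : Fin v, if x ∈ univ.filter (fun x => ∃ t : Fin (ρ x), c ⟨x, t⟩ % b = (j : ℕ)) then 1
          else 0 := by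
      rw [Finset.sum_ite_mem, Finset.univ_inter, Finset.sum_const, smul_eq_mul, mul_one]
    rw [h3, Finset.sum_congr rfl (fun x _ => hA x j)]
    have h4 : (∑ x : Fin v, ∑ t : Fin (ρ x), if c ⟨x, t⟩ % b = (j : ℕ) then 1 else 0) =
        ∑ p : (Σ x : Fin v, Fin (ρ x)), if c p % b = (j : ℕ) then 1 else 0 :=
      (Fintype.sum_sigma (fun p : (Σ x : Fin v, Fin (ρ x)) =>
        if c p % b = (j : ℕ) then 1 else 0)).symm
    rw [h4, hc]
    have h5 := Equiv.sum_comp (finSigmaFinEquiv (n := ρ))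
      (fun m : Fin (∑ x, ρ x) => if (m : ℕ) % b = (j : ℕ) then 1 else 0)
    rw [h5, Fin.sum_univ_eq_sum_range (fun m => if m % b = (j : ℕ) then 1 else 0), h2]
    exact pC_range b k j j.2
  · intro x
    have h3 : (univ.filter (fun j : Fin b =>
        x ∈ univ.filter (fun x => ∃ t : Fin (ρ x), c ⟨x, t⟩ % b = (j : ℕ)))).card =
        ∑ j : Fin b, if x ∈ univ.filter (fun x => ∃ t : Fin (ρ x), c ⟨x, t⟩ % b = (j : ℕ)) then 1
          else 0 := by
      rw [Finset.card_filter]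
    rw [h3, Finset.sum_congr rfl (fun j _ => hA x j), Finset.sum_comm]
    have h4 : ∀ t : Fin (ρ x), (∑ j : Fin b, if c ⟨x, t⟩ % b = (j : ℕ) then 1 else 0) = 1 := by
      intro t
      have hb : 0 < b := lt_of_le_of_lt (Nat.zero_le _) (lt_of_lt_of_le t.2 (h1 x))
      rw [Finset.sum_eq_single (⟨c ⟨x, t⟩ % b, Nat.mod_lt _ hb⟩ : Fin b)]
      · rw [if_pos rfl]
      · intro j _ hne
        rw [if_neg]
        intro h6
        exact hne (Fin.ext h6.symm)
      · intro h6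
        exact absurd (mem_univ _) h6
    rw [Finset.sum_congr rfl (fun t _ => h4 t), Finset.sum_const, Finset.card_univ,
      Fintype.card_fin, smul_eq_mul, mul_one]

end HCR
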