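import Mathlib
import Pool.Agent.Lib_helper88.HCR.Defs

set_option autoImplicit false

namespace HCR

open Finset Matrix

theorem pD_count {v k : ℕ} (hk : 2 ≤ k) (P : Finset (Fin v)) (hP : P.card = 2) :
    ((powersetCard k (univ : Finset (Fin v))).filter (fun Q => P ⊆ Q)).card =
      (v - 2).choose (k - 2) := by
  have h1 : ((powersetCard k (univ : Finset (Fin v))).filter (fun Q => P ⊆ Q)).card =
      (powersetCard (k - 2) (univ \ P : Finset (Fin v))).card := by
    apply Finset.card_nbij' (fun Q => Q \ P) (fun Q => Q ∪ P)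
    · intro Q hQ
      simp only [coe_filter, mem_powersetCard, subset_univ, true_and, Set.mem_ofPred_eq] at hQ
      simp only [mem_coe, mem_powersetCard]
      refine ⟨sdiff_subset_sdiff (subset_univ _) (Subset.refl _), ?_⟩
      rw [card_sdiff_of_subset hQ.2, hQ.1, hP]
    · intro Q hQ
      simp only [mem_coe, mem_powersetCard] at hQ
      simp only [coe_filter, mem_powersetCard, subset_univ, true_and, Set.mem_ofPred_eq]
      refine ⟨?_, subset_union_right⟩
      rw [card_union_of_disjoint, hQ.2, hP]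
      · omega
      · exact disjoint_of_subset_left hQ.1 sdiff_disjoint
    · intro Q hQ
      simp only [coe_filter, mem_powersetCard, subset_univ, true_and, Set.mem_ofPred_eq] at hQ
      exact sdiff_union_of_subset hQ.2
    · intro Q hQ
      simp only [mem_coe, mem_powersetCard] at hQ
      simp only
      rw [union_sdiff_right]
      exact sdiff_eq_self_of_disjoint (disjoint_of_subset_left hQ.1 sdiff_disjoint)
  rw [h1, card_powersetCard, card_sdiff_of_subset (subset_univ _), card_univ, Fintype.card_fin, hP]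

theorem pD_choose {v k : ℕ} (hv : 2 ≤ v) (hk : 2 ≤ k) :
    v * (v - 1) * (v - 2).choose (k - 2) = v.choose k * (k * (k - 1)) := by
  obtain ⟨n, rfl⟩ : ∃ n, v = n + 2 := ⟨v - 2, by omega⟩
  obtain ⟨j, rfl⟩ : ∃ j, k = j + 2 := ⟨k - 2, by omega⟩
  have h1 := Nat.add_one_mul_choose_eq n j
  have h2 := Nat.add_one_mul_choose_eq (n + 1) (j + 1)
  have e1 : n + 2 - 1 = n + 1 := by omega
  have e2 : j + 2 - 1 = j + 1 := by omega
  have e3 : n + 2 - 2 = n := by omega
  have e4 : j + 2 - 2 = j := by omega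
  rw [e1, e2, e3, e4]
  calc (n + 2) * (n + 1) * n.choose j = (n + 2) * ((n + 1) * n.choose j) := by ring
    _ = (n + 1 + 1) * ((n + 1).choose (j + 1)) * (j + 1) := by rw [h1]; ring
    _ = (n + 1 + 1).choose (j + 1 + 1) * (j + 1 + 1) * (j + 1) := by rw [h2]
    _ = (n + 2).choose (j + 2) * ((j + 2) * (j + 1)) := by ring

/-- the incidence vector of a block on the pairs -/
noncomputable def pDf {v : ℕ} (Q : Finset (Fin v)) :
    {P // P ∈ powersetCard 2 (univ : Finset (Fin v))} → ℝ :=
  fun P => if P.1 ⊆ Q then 1 else 0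

theorem pD_avg {v k : ℕ} (hv : 2 ≤ v) (hk : 2 ≤ k) (hkv : k ≤ v) :
    (fun _ => (k : ℝ) * ((k : ℝ) - 1) / ((v : ℝ) * ((v : ℝ) - 1))) ∈
      convexHull ℝ ((pDf : Finset (Fin v) → _) ''
        ((powersetCard k (univ : Finset (Fin v)) : Finset (Finset (Fin v))) :
          Set (Finset (Fin v)))) := by
  have hN : 0 < v.choose k := Nat.choose_pos hkv
  have hN' : (0 : ℝ) < v.choose k := by exact_mod_cast hN
  have hmem := (convex_convexHull ℝ ((pDf : Finset (Fin v) → _) ''
        ((powersetCard k (univ : Finset (Fin v)) : Finset (Finset (Fin v))) :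
          Set (Finset (Fin v))))).sum_mem (t := powersetCard k (univ : Finset (Fin v)))
      (w := fun _ => ((v.choose k : ℕ) : ℝ)⁻¹) (z := fun Q => pDf Q)
      (fun _ _ => by positivity)
      (by rw [sum_const, card_powersetCard, card_univ, Fintype.card_fin, nsmul_eq_mul,
            mul_inv_cancel₀ hN'.ne'])
      (fun Q hQ => subset_convexHull _ _ ⟨Q, hQ, rfl⟩)
  convert hmem using 1
  ext P
  have hP2 : P.1.card = 2 := (mem_powersetCard.mp P.2).2
  rw [Finset.sum_apply]
  simp only [Pi.smul_apply, pDf, smul_eq_mul, mul_ite, mul_one, mul_zero]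
  rw [← sum_filter, sum_const, pD_count hk P.1 hP2, nsmul_eq_mul]
  have hc := pD_choose hv hk
  have hc' : (v : ℝ) * ((v : ℝ) - 1) * ((v - 2).choose (k - 2) : ℕ) =
      (v.choose k : ℕ) * ((k : ℝ) * ((k : ℝ) - 1)) := by
    have := congrArg (Nat.cast : ℕ → ℝ) hc
    push_cast [Nat.cast_sub (show 1 ≤ v by omega), Nat.cast_sub (show 1 ≤ k by omega)] at this
    exact this
  have hv1 : (1 : ℝ) < v := by exact_mod_cast (by omega : 1 < v)
  have hv2 : (v : ℝ) * ((v : ℝ) - 1) ≠ 0 := by
    apply mul_ne_zero <;> linarith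
  rw [div_eq_iff hv2]
  field_simp
  linarith

theorem pD_swap {v : ℕ} {ι : Type} [Fintype ι] (q : ι → Finset (Fin v)) (w : ι → ℝ) (b : ℝ)
    (c : Finset (Fin v) → Prop) [DecidablePred c] :
    (∑ Q ∈ univ.image q, if c Q then b * ∑ i, (if q i = Q then w i else 0) else 0) =
      b * ∑ i, if c (q i) then w i else 0 := by
  have h1 : ∀ Q ∈ univ.image q, (if c Q then b * ∑ i, (if q i = Q then w i else 0) else 0) =
      ∑ i, (if q i = Q then (if c (q i) then b * w i else 0) else 0) := by
    intro Q _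
    by_cases h : c Q
    · rw [if_pos h, mul_sum]
      apply sum_congr rfl
      intro i _
      by_cases hq : q i = Q
      · rw [if_pos hq, if_pos hq, hq, if_pos h]
      · rw [if_neg hq, if_neg hq, mul_zero]
    · rw [if_neg h]
      symm
      apply sum_eq_zero
      intro i _
      by_cases hq : q i = Q
      · rw [if_pos hq, hq, if_neg h]
      · rw [if_neg hq]
  rw [sum_congr rfl h1, sum_comm, mul_sum]
  apply sum_congr rfl
  intro i _
  rw [sum_ite_eq, if_pos (mem_image_of_mem q (mem_univ i))]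
  by_cases h : c (q i)
  · rw [if_pos h, if_pos h]
  · rw [if_neg h, if_neg h, mul_zero]

/-- a fractional design with small support (Carathéodory) -/
theorem frac_design {v k b r : ℕ} (hv : 2 ≤ v) (hk : 2 ≤ k) (hkv : k ≤ v)
    (hc : v * r = b * k) :
    ∃ (S : Finset (Finset (Fin v))) (z : Finset (Fin v) → ℝ),
      (∀ Q ∈ S, Q.card = k) ∧ S.card ≤ v * (v - 1) / 2 + 1 ∧ (∀ Q ∈ S, 0 ≤ z Q) ∧
      ∑ Q ∈ S, z Q = b ∧
      (∀ x : Fin v, (∑ Q ∈ S, if x ∈ Q then z Q else 0) = r) ∧
      ∀ x y : Fin v, x ≠ y → (∑ Q ∈ S, if x ∈ Q ∧ y ∈ Q then z Q else 0) =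
        (r : ℝ) * ((k : ℝ) - 1) / ((v : ℝ) - 1) := by
  obtain ⟨ι, hι, f, w, hf, hai, hw, hw1, hsum⟩ :=
    eq_pos_convex_span_of_mem_convexHull (pD_avg hv hk hkv)
  have hq : ∀ i, ∃ Q : Finset (Fin v), Q.card = k ∧ pDf Q = f i := by
    intro i
    obtain ⟨Q, hQ, he⟩ := hf ⟨i, rfl⟩
    exact ⟨Q, (mem_powersetCard.mp (mem_coe.mp hQ)).2, he⟩
  choose q hqc hqf using hq
  have hcard : Fintype.card ι ≤ v * (v - 1) / 2 + 1 := by
    have h1 := hai.card_le_finrank_succ
    have h2 : Module.finrank ℝ (vectorSpan ℝ (Set.range f)) ≤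
        Module.finrank ℝ ({P // P ∈ powersetCard 2 (univ : Finset (Fin v))} → ℝ) :=
      Submodule.finrank_le _
    rw [Module.finrank_pi, Fintype.card_coe, card_powersetCard, card_univ, Fintype.card_fin,
      Nat.choose_two_right] at h2
    omega
  have hv1 : (1 : ℝ) < v := by exact_mod_cast (by omega : 1 < v)
  have hk1 : (1 : ℝ) < k := by exact_mod_cast (by omega : 1 < k)
  have hcR : (v : ℝ) * r = b * k := by exact_mod_cast hc
  have hpair : ∀ x y : Fin v, x ≠ y →
      (∑ i, if x ∈ q i ∧ y ∈ q i then w i else 0) =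
        (k : ℝ) * ((k : ℝ) - 1) / ((v : ℝ) * ((v : ℝ) - 1)) := by
    intro x y hxy
    have hP : ({x, y} : Finset (Fin v)) ∈ powersetCard 2 (univ : Finset (Fin v)) := by
      rw [mem_powersetCard]
      exact ⟨subset_univ _, card_pair hxy⟩
    have h1 := congrFun hsum ⟨_, hP⟩
    rw [Finset.sum_apply] at h1
    rw [← h1]
    apply sum_congr rfl
    intro i _
    rw [Pi.smul_apply, ← hqf i, smul_eq_mul, pDf]
    simp only [insert_subset_iff, singleton_subset_iff, mul_ite, mul_one, mul_zero]
  have hpairb : ∀ x y : Fin v, x ≠ y →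
      (b : ℝ) * (∑ i, if x ∈ q i ∧ y ∈ q i then w i else 0) =
        (r : ℝ) * ((k : ℝ) - 1) / ((v : ℝ) - 1) := by
    intro x y hxy
    rw [hpair x y hxy]
    have h0 : (v : ℝ) ≠ 0 := by linarith
    have h0' : (v : ℝ) - 1 ≠ 0 := by linarith
    field_simp
    linear_combination (1 - (k : ℝ)) * hcR
  refine ⟨univ.image q, fun Q => (b : ℝ) * ∑ i, (if q i = Q then w i else 0), ?_, ?_, ?_, ?_,
    ?_, ?_⟩
  · intro Q hQ
    obtain ⟨i, _, rfl⟩ := mem_image.mp hQ
    exact hqc i
  · exact card_image_le.trans (by rw [card_univ]; exact hcard)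
  · intro Q _
    apply mul_nonneg (by positivity)
    apply sum_nonneg
    intro i _
    split_ifs
    · exact (hw i).le
    · exact le_refl _
  · have h := pD_swap q w b (fun _ => True)
    simp only [if_true] at h
    rw [h, hw1, mul_one]
  · intro x
    have h := pD_swap q w b (fun Q => x ∈ Q)
    rw [h]
    have h2 : ((k : ℝ) - 1) * (∑ i, if x ∈ q i then w i else 0) =
        ∑ y ∈ univ.erase x, ∑ i, (if x ∈ q i ∧ y ∈ q i then w i else 0) := by
      rw [sum_comm, mul_sum]
      apply sum_congr rfl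
      intro i _
      by_cases hx : x ∈ q i
      · rw [if_pos hx]
        simp only [hx, true_and]
        rw [← sum_filter, sum_const, nsmul_eq_mul]
        have h3 : ((univ.erase x).filter (fun y => y ∈ q i)) = (q i).erase x := by
          ext y
          simp only [mem_filter, mem_erase, mem_univ, and_true]
        rw [h3, card_erase_of_mem hx, hqc i, Nat.cast_sub (by omega)]
        push_cast
        ring
      · rw [if_neg hx, mul_zero]
        symm
        apply sum_eq_zero
        intro y _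
        rw [if_neg (fun h => hx h.1)]
    have h4 : ((k : ℝ) - 1) * ((b : ℝ) * ∑ i, if x ∈ q i then w i else 0) =
        ((k : ℝ) - 1) * r := by
      calc ((k : ℝ) - 1) * ((b : ℝ) * ∑ i, if x ∈ q i then w i else 0)
          = b * (((k : ℝ) - 1) * ∑ i, if x ∈ q i then w i else 0) := by ring
        _ = ∑ y ∈ univ.erase x, (b : ℝ) * ∑ i, (if x ∈ q i ∧ y ∈ q i then w i else 0) := by
            rw [h2, mul_sum]
        _ = ∑ y ∈ univ.erase x, (r : ℝ) * ((k : ℝ) - 1) / ((v : ℝ) - 1) := by
            apply sum_congr rfl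
            intro y hy
            exact hpairb x y (ne_of_mem_erase hy).symm
        _ = ((k : ℝ) - 1) * r := by
            rw [sum_const, card_erase_of_mem (mem_univ x), card_univ, Fintype.card_fin,
              nsmul_eq_mul, Nat.cast_sub (by omega)]
            have h0' : (v : ℝ) - 1 ≠ 0 := by linarith
            push_cast
            field_simp
    exact mul_left_cancel₀ (by linarith) h4
  · intro x y hxy
    have h := pD_swap q w b (fun Q => x ∈ Q ∧ y ∈ Q)
    rw [h]
    exact hpairb x y hxy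

end HCR
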