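import Mathlib
import Pool.Agent.Lib_helper88.HCR.Defs
import Pool.Agent.Lib_helper88.HCP.pC
import Pool.Agent.Lib_helper88.HCP.pD

set_option autoImplicit false

namespace HCR

open Finset Matrix

/-- the family with `n Q` copies of `Q` (for `Q ∈ S`) and the sets `B1` -/
theorem pE_family {v : ℕ} (S : Finset (Finset (Fin v))) (n : Finset (Fin v) → ℕ) (b1 b : ℕ)
    (B1 : Fin b1 → Finset (Fin v)) (h : ∑ Q ∈ S, n Q + b1 = b) :
    ∃ B : Fin b → Finset (Fin v), ∀ g : Finset (Fin v) → ℕ,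
      ∑ j, g (B j) = ∑ Q ∈ S, n Q * g Q + ∑ j, g (B1 j) := by
  have hc : Fintype.card ((Σ Q : S, Fin (n (Q : Finset (Fin v)))) ⊕ Fin b1) = b := by
    rw [Fintype.card_sum, Fintype.card_sigma, Fintype.card_fin]
    simp only [Fintype.card_fin]
    rw [Finset.sum_coe_sort S (fun Q => n Q), h]
  have e : Fin b ≃ ((Σ Q : S, Fin (n (Q : Finset (Fin v)))) ⊕ Fin b1) :=
    (Fintype.equivFinOfCardEq hc).symm
  refine ⟨fun j => Sum.elim (fun p => (p.1 : Finset (Fin v))) B1 (e j), fun g => ?_⟩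
  rw [Equiv.sum_comp e (fun t => g (Sum.elim (fun p => (p.1 : Finset (Fin v))) B1 t)),
    Fintype.sum_sum_type]
  simp only [Sum.elim_inl, Sum.elim_inr]
  rw [Fintype.sum_sigma]
  simp only [Finset.sum_const, Finset.card_univ, Fintype.card_fin, smul_eq_mul]
  rw [Finset.sum_coe_sort S (fun Q => n Q * g Q)]

/-- a family of `b` sets of size `k`, every point in `r` of them, all pairs covered
`r (k - 1) / (v - 1)` times up to an error at most `v (v - 1) / 2` -/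
theorem near_family {v k b r : ℕ} (hv : 2 ≤ v) (hk : 2 ≤ k) (hkv : k ≤ v)
    (hc : v * r = b * k) :
    ∃ B : Fin b → Finset (Fin v), (∀ j, (B j).card = k) ∧
      (∀ x, (univ.filter (fun j => x ∈ B j)).card = r) ∧
      ∀ x y, x ≠ y → |((univ.filter (fun j => x ∈ B j ∧ y ∈ B j)).card : ℝ) -
        (r : ℝ) * ((k : ℝ) - 1) / ((v : ℝ) - 1)| ≤ (v : ℝ) * ((v : ℝ) - 1) / 2 := by
  obtain ⟨S, z, hS, hSc, hz, hzb, hzx, hzxy⟩ := frac_design hv hk hkv hc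
  have hn : ∀ Q ∈ S, ((⌊z Q⌋₊ : ℕ) : ℝ) ≤ z Q := fun Q hQ => Nat.floor_le (hz Q hQ)
  have hf0 : ∀ Q ∈ S, 0 ≤ z Q - (⌊z Q⌋₊ : ℕ) := fun Q hQ => sub_nonneg.2 (hn Q hQ)
  have hf1 : ∀ Q ∈ S, z Q - (⌊z Q⌋₊ : ℕ) < 1 := by
    intro Q _
    have := Nat.lt_floor_add_one (z Q)
    linarith
  -- the number of missing blocks
  have hle : ∑ Q ∈ S, ⌊z Q⌋₊ ≤ b := by
    have : ((∑ Q ∈ S, ⌊z Q⌋₊ : ℕ) : ℝ) ≤ (b : ℝ) := by
      rw [← hzb]
      push_cast
      exact Finset.sum_le_sum hn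
    exact_mod_cast this
  obtain ⟨b1, hb1⟩ := Nat.exists_eq_add_of_le hle
  have hb1r : (b1 : ℝ) = ∑ Q ∈ S, (z Q - (⌊z Q⌋₊ : ℕ)) := by
    rw [Finset.sum_sub_distrib, hzb, hb1]
    push_cast
    ring
  have hb1le : b1 ≤ v * (v - 1) / 2 := by
    rcases S.eq_empty_or_nonempty with h0 | h0
    · rw [h0, Finset.sum_empty] at hb1r
      have : b1 = 0 := by exact_mod_cast hb1r
      omega
    · have h1 : (b1 : ℝ) < S.card := by
        rw [hb1r]
        calc ∑ Q ∈ S, (z Q - (⌊z Q⌋₊ : ℕ)) < ∑ _Q ∈ S, (1 : ℝ) :=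
              Finset.sum_lt_sum_of_nonempty h0 hf1
          _ = S.card := by simp
      have h2 : b1 < S.card := by exact_mod_cast h1
      omega
  have hb1R : (b1 : ℝ) ≤ (v : ℝ) * ((v : ℝ) - 1) / 2 := by
    have h1 : 2 * b1 ≤ v * (v - 1) := by omega
    have h2 : ((2 * b1 : ℕ) : ℝ) ≤ ((v * (v - 1) : ℕ) : ℝ) := by exact_mod_cast h1
    rw [Nat.cast_mul, Nat.cast_mul, Nat.cast_sub (by omega : 1 ≤ v)] at h2
    push_cast at h2
    linarith
  -- the missing degrees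
  have hxle : ∀ x : Fin v, (∑ Q ∈ S, if x ∈ Q then ⌊z Q⌋₊ else 0) ≤ r := by
    intro x
    have : ((∑ Q ∈ S, if x ∈ Q then ⌊z Q⌋₊ else 0 : ℕ) : ℝ) ≤ (r : ℝ) := by
      rw [← hzx x, Nat.cast_sum]
      refine Finset.sum_le_sum (fun Q hQ => ?_)
      split_ifs
      · exact hn Q hQ
      · simp
    exact_mod_cast this
  have hρ : ∀ x : Fin v, ∃ ρ : ℕ, r = (∑ Q ∈ S, if x ∈ Q then ⌊z Q⌋₊ else 0) + ρ := fun x =>
    Nat.exists_eq_add_of_le (hxle x)
  choose ρ hρ using hρ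
  have hρr : ∀ x, (ρ x : ℝ) = ∑ Q ∈ S, if x ∈ Q then (z Q - (⌊z Q⌋₊ : ℕ)) else 0 := by
    intro x
    have h1 : (r : ℝ) = (∑ Q ∈ S, if x ∈ Q then ((⌊z Q⌋₊ : ℕ) : ℝ) else 0) + ρ x := by
      have h2 : ((r : ℕ) : ℝ) = (((∑ Q ∈ S, if x ∈ Q then ⌊z Q⌋₊ else 0) + ρ x : ℕ) : ℝ) :=
        congrArg _ (hρ x)
      rw [Nat.cast_add, Nat.cast_sum] at h2
      rw [h2]
      congr 1
      refine Finset.sum_congr rfl (fun Q _ => ?_)
      split_ifs <;> simp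
    have h3 : (ρ x : ℝ) = (∑ Q ∈ S, if x ∈ Q then z Q else 0) -
        ∑ Q ∈ S, if x ∈ Q then ((⌊z Q⌋₊ : ℕ) : ℝ) else 0 := by
      rw [hzx x]
      linarith
    rw [h3, ← Finset.sum_sub_distrib]
    refine Finset.sum_congr rfl (fun Q _ => ?_)
    split_ifs <;> ring
  have hρb : ∀ x, ρ x ≤ b1 := by
    intro x
    have : (ρ x : ℝ) ≤ (b1 : ℝ) := by
      rw [hρr x, hb1r]
      refine Finset.sum_le_sum (fun Q hQ => ?_)
      split_ifs
      · exact le_rfl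
      · exact hf0 Q hQ
    exact_mod_cast this
  have hρs : ∑ x, ρ x = k * b1 := by
    have : ((∑ x, ρ x : ℕ) : ℝ) = ((k * b1 : ℕ) : ℝ) := by
      rw [Nat.cast_sum, Nat.cast_mul, hb1r, Finset.mul_sum]
      rw [Finset.sum_congr rfl (fun x _ => hρr x), Finset.sum_comm]
      refine Finset.sum_congr rfl (fun Q hQ => ?_)
      rw [← Finset.sum_filter, Finset.sum_const, nsmul_eq_mul, Finset.filter_mem_eq_inter,
        Finset.univ_inter, hS Q hQ]
    exact_mod_cast this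
  obtain ⟨B1, hB1, hB1x⟩ := exists_blocks b1 k ρ hρb hρs
  obtain ⟨B, hB⟩ := pE_family S (fun Q => ⌊z Q⌋₊) b1 b B1 hb1.symm
  have hcount : ∀ (P : Finset (Fin v) → Prop) [DecidablePred P],
      (univ.filter (fun j => P (B j))).card =
        (∑ Q ∈ S, if P Q then ⌊z Q⌋₊ else 0) + (univ.filter (fun j => P (B1 j))).card := by
    intro P _
    have h1 := hB (fun Q => if P Q then 1 else 0)
    rw [Finset.card_filter, Finset.card_filter, h1]
    congr 1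
    refine Finset.sum_congr rfl (fun Q _ => ?_)
    split_ifs <;> simp
  refine ⟨B, ?_, ?_, ?_⟩
  · intro j
    have h1 := hB (fun Q => if Q.card = k then 0 else 1)
    have h2 : ∑ Q ∈ S, ⌊z Q⌋₊ * (if Q.card = k then 0 else 1) = 0 := by
      refine Finset.sum_eq_zero (fun Q hQ => ?_)
      rw [if_pos (hS Q hQ), mul_zero]
    have h3 : ∑ j, (if (B1 j).card = k then 0 else 1) = 0 := by
      refine Finset.sum_eq_zero (fun j _ => ?_)
      rw [if_pos (hB1 j)]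
    rw [h2, h3, add_zero] at h1
    have h4 := (Finset.sum_eq_zero_iff.1 h1) j (mem_univ j)
    by_contra hne
    rw [if_neg hne] at h4
    exact one_ne_zero h4
  · intro x
    rw [hcount (fun Q => x ∈ Q), hB1x x]
    exact (hρ x).symm
  · intro x y hxy
    have h1 := hcount (fun Q => x ∈ Q ∧ y ∈ Q)
    have h2 : ((univ.filter (fun j => x ∈ B j ∧ y ∈ B j)).card : ℝ) =
        (∑ Q ∈ S, if x ∈ Q ∧ y ∈ Q then ((⌊z Q⌋₊ : ℕ) : ℝ) else 0) +
          ((univ.filter (fun j => x ∈ B1 j ∧ y ∈ B1 j)).card : ℝ) := by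
      rw [h1, Nat.cast_add, Nat.cast_sum]
      congr 1
      refine Finset.sum_congr rfl (fun Q _ => ?_)
      split_ifs <;> simp
    have h3 : ((univ.filter (fun j => x ∈ B j ∧ y ∈ B j)).card : ℝ) -
        (r : ℝ) * ((k : ℝ) - 1) / ((v : ℝ) - 1) =
        ((univ.filter (fun j => x ∈ B1 j ∧ y ∈ B1 j)).card : ℝ) -
          ∑ Q ∈ S, if x ∈ Q ∧ y ∈ Q then (z Q - (⌊z Q⌋₊ : ℕ)) else 0 := by
      rw [← hzxy x y hxy, h2]
      have h4 : (∑ Q ∈ S, if x ∈ Q ∧ y ∈ Q then (z Q - (⌊z Q⌋₊ : ℕ)) else 0) =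
          (∑ Q ∈ S, if x ∈ Q ∧ y ∈ Q then z Q else 0) -
            ∑ Q ∈ S, if x ∈ Q ∧ y ∈ Q then ((⌊z Q⌋₊ : ℕ) : ℝ) else 0 := by
        rw [← Finset.sum_sub_distrib]
        refine Finset.sum_congr rfl (fun Q _ => ?_)
        split_ifs <;> ring
      rw [h4]
      ring
    have h5 : 0 ≤ ∑ Q ∈ S, if x ∈ Q ∧ y ∈ Q then (z Q - (⌊z Q⌋₊ : ℕ)) else 0 := by
      refine Finset.sum_nonneg (fun Q hQ => ?_)
      split_ifs
      · exact hf0 Q hQ
      · exact le_rfl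
    have h6 : (∑ Q ∈ S, if x ∈ Q ∧ y ∈ Q then (z Q - (⌊z Q⌋₊ : ℕ)) else 0) ≤ b1 := by
      rw [hb1r]
      refine Finset.sum_le_sum (fun Q hQ => ?_)
      split_ifs
      · exact le_rfl
      · exact hf0 Q hQ
    have h7 : ((univ.filter (fun j => x ∈ B1 j ∧ y ∈ B1 j)).card : ℝ) ≤ b1 := by
      have : (univ.filter (fun j => x ∈ B1 j ∧ y ∈ B1 j)).card ≤ b1 := by
        refine (Finset.card_filter_le _ _).trans ?_
        simp
      exact_mod_cast this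
    have h8 : (0 : ℝ) ≤ ((univ.filter (fun j => x ∈ B1 j ∧ y ∈ B1 j)).card : ℝ) := by
      positivity
    rw [h3, abs_le]
    constructor <;> linarith

end HCR
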