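import Mathlib
import Pool.Agent.Lib_helper88.HCR.Defs
import Pool.Agent.Lib_helper88.HCP.pE
import Pool.Agent.Lib_helper88.HCR.dr
import Pool.Agent.Lib_helper88.HCR.rg
import Pool.Agent.Lib_helper88.HCR.db
import Pool.Agent.Lib_helper88.HCR.fn

set_option autoImplicit false

namespace HCR

open Finset Matrix

theorem pF_core {v b k r : ℕ} (q r' k' : ℕ) (hk : v * q + k' = k) (hr : r = q * b + r')
    (lam : ℤ) (B : Fin b → Finset (Fin v)) (hB : ∀ l, (B l).card = k')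
    (hx : ∀ x, (univ.filter (fun l => x ∈ B l)).card = r')
    (hD : D0 v b k r = (q : ℤ) ^ 2 * b + (2 * (q : ℤ) + 1) * r') :
    ∃ N : Matrix (Fin v) (Fin b) ℕ, IsDes k r N ∧
      (∀ i, Ex lam (D0 v b k r - lam) N i i = 0) ∧
      ∀ i j, i ≠ j → Ex lam (D0 v b k r - lam) N i j =
        (((univ.filter (fun l => i ∈ B l ∧ j ∈ B l)).card : ℕ) : ℤ) -
          (lam - (2 * (q : ℤ) * r' + (q : ℤ) ^ 2 * b)) := by
  refine ⟨fun i l => q + if i ∈ B l then 1 else 0, ⟨?_, ?_⟩, ?_, ?_⟩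
  · intro l
    simp only [Finset.sum_add_distrib, Finset.sum_const, Finset.card_univ, Fintype.card_fin,
      smul_eq_mul, Finset.sum_boole, Finset.filter_mem_eq_inter, Finset.univ_inter, hB, Nat.cast_id]
    exact hk
  · intro i
    simp only [Finset.sum_add_distrib, Finset.sum_const, Finset.card_univ, Fintype.card_fin,
      smul_eq_mul, Finset.sum_boole, hx, Nat.cast_id]
    rw [hr, mul_comm]
  all_goals
    have hx' : ∀ x : Fin v, (∑ l : Fin b, (if x ∈ B l then (1 : ℤ) else 0)) = r' := by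
      intro x
      rw [Finset.sum_boole, hx]
  · intro i
    unfold Ex
    have hexp : ∀ l : Fin b, (((q + if i ∈ B l then 1 else 0 : ℕ) : ℤ) *
        ((q + if i ∈ B l then 1 else 0 : ℕ) : ℤ)) =
        (q : ℤ) ^ 2 + (2 * q + 1) * (if i ∈ B l then (1 : ℤ) else 0) := by
      intro l
      by_cases h1 : i ∈ B l <;> simp [h1] <;> ring
    simp only [hexp]
    rw [Finset.sum_add_distrib, ← Finset.mul_sum, hx', Finset.sum_const, Finset.card_univ,
      Fintype.card_fin, hD]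
    simp only [if_true, nsmul_eq_mul]
    ring
  · intro i j hij
    unfold Ex
    have hexp : ∀ l : Fin b, (((q + if i ∈ B l then 1 else 0 : ℕ) : ℤ) *
        ((q + if j ∈ B l then 1 else 0 : ℕ) : ℤ)) =
        (q : ℤ) ^ 2 + q * (if i ∈ B l then (1 : ℤ) else 0) + q * (if j ∈ B l then (1 : ℤ) else 0) +
          (if i ∈ B l ∧ j ∈ B l then (1 : ℤ) else 0) := by
      intro l
      by_cases h1 : i ∈ B l <;> by_cases h2 : j ∈ B l <;> simp [h1, h2] <;> ring
    simp only [hexp]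
    rw [Finset.sum_add_distrib, Finset.sum_add_distrib, Finset.sum_add_distrib, ← Finset.mul_sum,
      ← Finset.mul_sum, hx', hx', Finset.sum_boole, Finset.sum_const, Finset.card_univ,
      Fintype.card_fin, if_neg hij, nsmul_eq_mul]
    ring

theorem pF_cast (lam : ℤ) (q r' b k' v d : ℕ)
    (hl : (lam - (2 * (q : ℤ) * r' + (q : ℤ) ^ 2 * b)) * ((v : ℤ) - 1) + d =
      (r' : ℤ) * ((k' : ℤ) - 1)) :
    ((lam : ℝ) - (2 * (q : ℝ) * r' + (q : ℝ) ^ 2 * b)) * ((v : ℝ) - 1) + d =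
      (r' : ℝ) * ((k' : ℝ) - 1) := by
  have h := congrArg (fun z : ℤ => (z : ℝ)) hl
  push_cast at h
  exact h

theorem pF_cast2 (lam e : ℤ) (q r' b c : ℕ)
    (hl : e = (c : ℤ) - (lam - (2 * (q : ℤ) * r' + (q : ℤ) ^ 2 * b))) :
    (e : ℝ) = (c : ℝ) - ((lam : ℝ) - (2 * (q : ℝ) * r' + (q : ℝ) ^ 2 * b)) := by
  rw [hl]
  push_cast
  ring

/-- a design close to uniform, for all parameters -/
theorem near_design {v b k r d : ℕ} (hv : 2 ≤ v) (hk : 2 ≤ k) (hc : v * r = b * k) (lam : ℤ)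
    (hp : (r : ℤ) * k - D0 v b k r = lam * ((v : ℤ) - 1) + d) (hd : d + 2 ≤ v) :
    ∃ N : Matrix (Fin v) (Fin b) ℕ, IsDes k r N ∧
      (∀ i, Ex lam (D0 v b k r - lam) N i i = 0) ∧
      4 * sq (Ex lam (D0 v b k r - lam) N) ≤ (v : ℤ) ^ 6 := by
  have hvz : (2 : ℤ) ≤ v := by exact_mod_cast hv
  rcases Nat.lt_or_ge (k % v) 2 with h2 | h2
  · obtain ⟨G, hG⟩ := exists_reg v d (by omega) (vd_even hv hc lam hp)
    obtain ⟨N, hN, hE⟩ := des_triv hv (by omega) hc lam hp hd G hG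
    refine ⟨N, hN, fun i => by rw [hE]; exact hG.diag i, ?_⟩
    rw [hE, reg_sq d G hG]
    have hdz : (d : ℤ) ≤ v := by exact_mod_cast (by omega : d ≤ v)
    have hd0 : (0 : ℤ) ≤ d := by positivity
    have h16 : (4 : ℤ) ≤ (v : ℤ) ^ 4 := by
      have : (2 : ℤ) ^ 4 ≤ (v : ℤ) ^ 4 := pow_le_pow_left₀ (by norm_num) hvz 4
      linarith
    have h17 : (v : ℤ) * d ≤ (v : ℤ) ^ 2 := by nlinarith
    have h18 : (4 : ℤ) * (v : ℤ) ^ 2 ≤ (v : ℤ) ^ 4 * (v : ℤ) ^ 2 :=
      mul_le_mul_of_nonneg_right h16 (by positivity)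
    have h19 : (v : ℤ) ^ 6 = (v : ℤ) ^ 4 * (v : ℤ) ^ 2 := by ring
    rw [h19]
    linarith
  · obtain ⟨r', hr, hvr, hS, hD⟩ := D0_id (v := v) (b := b) (k := k) (r := r) (by omega) hc
    have hkv : k % v ≤ v := (Nat.mod_lt _ (by omega)).le
    obtain ⟨B, hB1, hB2, hB3⟩ := near_family hv h2 hkv hvr
    obtain ⟨N, hN, hN0, hN1⟩ := pF_core (k := k) (k / v) r' (k % v) (Nat.div_add_mod k v) hr lam B
      hB1 hB2 hD
    refine ⟨N, hN, hN0, ?_⟩
    have hvr' : (2 : ℝ) ≤ v := by exact_mod_cast hv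
    have hv1 : (0 : ℝ) < (v : ℝ) - 1 := by linarith
    have hl : (lam - (2 * ((k / v : ℕ) : ℤ) * r' + ((k / v : ℕ) : ℤ) ^ 2 * b)) *
        ((v : ℤ) - 1) + d = (r' : ℤ) * (((k % v : ℕ) : ℤ) - 1) := by
      linear_combination hS - hp
    have hlr : ((lam : ℝ) - (2 * ((k / v : ℕ) : ℝ) * r' + ((k / v : ℕ) : ℝ) ^ 2 * b)) *
        ((v : ℝ) - 1) + d = (r' : ℝ) * (((k % v : ℕ) : ℝ) - 1) :=
      pF_cast lam _ _ _ _ _ _ hl
    have hent : ∀ i j, 4 * (Ex lam (D0 v b k r - lam) N i j) ^ 2 ≤ if i = j then 0 else (v : ℤ) ^ 4 := by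
      intro i j
      by_cases hij : i = j
      · subst hij
        rw [hN0, if_pos rfl]
        norm_num
      · rw [if_neg hij]
        have h3 := abs_le.1 (hB3 i j hij)
        have h4 := hN1 i j hij
        have h4r : ((Ex lam (D0 v b k r - lam) N i j : ℤ) : ℝ) =
            ((univ.filter (fun l => i ∈ B l ∧ j ∈ B l)).card : ℝ) -
              ((lam : ℝ) - (2 * ((k / v : ℕ) : ℝ) * r' + ((k / v : ℕ) : ℝ) ^ 2 * b)) :=
          pF_cast2 lam _ _ _ _ _ h4
        have h5 : (r' : ℝ) * (((k % v : ℕ) : ℝ) - 1) / ((v : ℝ) - 1) =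
            ((lam : ℝ) - (2 * ((k / v : ℕ) : ℝ) * r' + ((k / v : ℕ) : ℝ) ^ 2 * b)) +
              d / ((v : ℝ) - 1) := by
          rw [← hlr]
          field_simp
        have h6 : 0 ≤ (d : ℝ) / ((v : ℝ) - 1) := by positivity
        have h7 : (d : ℝ) / ((v : ℝ) - 1) ≤ 1 := by
          rw [div_le_one hv1]
          have : (d : ℝ) + 2 ≤ v := by exact_mod_cast hd
          linarith
        rw [h5] at h3
        have h8 : |((Ex lam (D0 v b k r - lam) N i j : ℤ) : ℝ)| ≤ (v : ℝ) ^ 2 / 2 := by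
          rw [abs_le, h4r]
          constructor
          · nlinarith [h3.1]
          · nlinarith [h3.2]
        have h9 : (4 : ℝ) * ((Ex lam (D0 v b k r - lam) N i j : ℤ) : ℝ) ^ 2 ≤ (v : ℝ) ^ 4 := by
          have h10 : ((Ex lam (D0 v b k r - lam) N i j : ℤ) : ℝ) ^ 2 ≤ ((v : ℝ) ^ 2 / 2) ^ 2 := by
            rw [← sq_abs]
            exact pow_le_pow_left₀ (abs_nonneg _) h8 2
          nlinarith
        exact_mod_cast h9
    have hsum : 4 * sq (Ex lam (D0 v b k r - lam) N) ≤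
        ∑ i : Fin v, ∑ j : Fin v, if i = j then (0 : ℤ) else (v : ℤ) ^ 4 := by
      unfold sq
      rw [Finset.mul_sum]
      refine Finset.sum_le_sum (fun i _ => ?_)
      rw [Finset.mul_sum]
      exact Finset.sum_le_sum (fun j _ => hent i j)
    refine hsum.trans ?_
    have h11 : ∀ i : Fin v, (∑ j : Fin v, if i = j then (0 : ℤ) else (v : ℤ) ^ 4) ≤
        v * (v : ℤ) ^ 4 := by
      intro i
      have : ∀ j ∈ (univ : Finset (Fin v)), (if i = j then (0 : ℤ) else (v : ℤ) ^ 4) ≤ (v : ℤ) ^ 4 := by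
        intro j _
        split_ifs
        · positivity
        · exact le_rfl
      refine (Finset.sum_le_sum this).trans ?_
      simp
    refine (Finset.sum_le_sum (fun i _ => h11 i)).trans ?_
    simp only [Finset.sum_const, Finset.card_univ, Fintype.card_fin, nsmul_eq_mul]
    apply le_of_eq
    ring

/-- `S = r k - D0 ≥ r k / 4` -/
theorem S_ge {v b k r : ℕ} (hv : 2 ≤ v) (hk : 2 ≤ k) (hc : v * r = b * k) :
    (r : ℤ) * k ≤ 4 * ((r : ℤ) * k - D0 v b k r) := by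
  obtain ⟨r', hr, hvr, hS, hD⟩ := D0_id (v := v) (b := b) (k := k) (r := r) (by omega) hc
  have hk' : v * (k / v) + k % v = k := Nat.div_add_mod k v
  rw [hD]
  set q := k / v with hq
  set k' := k % v with hk''
  have hk2 : (k : ℤ) = v * q + k' := by exact_mod_cast hk'.symm
  have hr2 : (r : ℤ) = q * b + r' := by exact_mod_cast hr
  have hvz : (2 : ℤ) ≤ v := by exact_mod_cast hv
  have h1' : (v : ℤ) * r' = b * k' := by exact_mod_cast hvr
  have hr0 : (0 : ℤ) ≤ r' := by positivity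
  have hq0 : (0 : ℤ) ≤ q := by positivity
  have hb0 : (0 : ℤ) ≤ b := by positivity
  have hk0 : (0 : ℤ) ≤ k' := by positivity
  have hrk : (r : ℤ) * k = q ^ 2 * b * v + 2 * q * (v * r') + r' * k' := by
    rw [hk2, hr2]
    linear_combination (-(q : ℤ)) * h1'
  rcases Nat.eq_zero_or_pos q with h0 | h0
  · have hkk : k' = k := by rw [h0] at hk'; omega
    have hqz : (q : ℤ) = 0 := by exact_mod_cast h0
    have hkz : (2 : ℤ) ≤ k' := by rw [hkk]; exact_mod_cast hk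
    rw [hrk, hqz]
    nlinarith
  · have hqz : (1 : ℤ) ≤ q := by exact_mod_cast h0
    have e1 : 2 * ((q : ℤ) ^ 2 * b) ≤ q ^ 2 * b * v := by nlinarith [mul_nonneg (sq_nonneg (q : ℤ)) hb0]
    have e2 : 2 * ((q : ℤ) * r') ≤ q * (v * r') := by nlinarith [mul_nonneg hq0 hr0]
    have e3 : (r' : ℤ) ≤ q * r' := by nlinarith
    have e4 : (0 : ℤ) ≤ r' * k' := mul_nonneg hr0 hk0
    have e5 : (0 : ℤ) ≤ (q : ℤ) ^ 2 * b := by positivity
    rw [hrk]
    nlinarith

end HCR
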